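import Mathlib

set_option autoImplicit false
open Filter Topology MeasureTheory
open scoped ENNReal

namespace Pool.Agent.TH331.Pol

/-- tangent line inequality for `t ^ (-s)` -/
theorem tangent {s a b : ℝ} (hs : 0 < s) (ha : 0 < a) (hb : 0 < b) :
    a ^ (-s) + (-s * a ^ (-s - 1)) * (b - a) ≤ b ^ (-s) := by
  have h1 : b ^ (-s) = a ^ (-s) * (b / a) ^ (-s) := by
    rw [← Real.mul_rpow ha.le (by positivity)]
    congr 1
    field_simp
  have h2 : a ^ (-s - 1) = a ^ (-s) / a := by
    rw [Real.rpow_sub ha, Real.rpow_one]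
  have h3 : (b / a) ^ (-s) = Real.exp (-s * Real.log (b / a)) := by
    rw [Real.rpow_def_of_pos (by positivity)]
    ring_nf
  have h4 : Real.log (b / a) ≤ b / a - 1 := Real.log_le_sub_one_of_pos (by positivity)
  have h5 : -s * Real.log (b / a) + 1 ≤ (b / a) ^ (-s) := by
    rw [h3]; exact Real.add_one_le_exp _
  have h6 : 1 - s * (b / a - 1) ≤ (b / a) ^ (-s) := by nlinarith
  have h7 : 0 < a ^ (-s) := Real.rpow_pos_of_pos ha _
  rw [h1, h2]
  have h8 : a ^ (-s) + -s * (a ^ (-s) / a) * (b - a) = a ^ (-s) * (1 - s * (b / a - 1)) := by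
    field_simp
    ring
  rw [h8]
  exact mul_le_mul_of_nonneg_left h6 h7.le

/-- summation by parts -/
theorem abel (D e : ℕ → ℝ) (N : ℕ) (hD : ∀ i, i + 1 < N → D i ≤ D (i + 1))
    (hP : ∀ m, m ≤ N → ∑ i ∈ Finset.range m, e i ≤ 0) (hN : ∑ i ∈ Finset.range N, e i = 0) :
    0 ≤ ∑ i ∈ Finset.range N, D i * e i := by
  have key : ∀ n, n + 1 ≤ N → D n * ∑ i ∈ Finset.range (n + 1), e i ≤
      ∑ i ∈ Finset.range (n + 1), D i * e i := by
    intro n
    induction n with
    | zero => intro _; simp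
    | succ n ih =>
      intro hn
      have h1 := ih (by omega)
      rw [Finset.sum_range_succ _ (n + 1), Finset.sum_range_succ _ (n + 1)]
      have h2 := hP (n + 1) (by omega)
      have h3 := hD n (by omega)
      nlinarith [mul_nonneg (sub_nonneg.2 h3) (neg_nonneg.2 h2)]
  rcases N with _ | N
  · simp
  · have := key N le_rfl
    rw [hN, mul_zero] at this
    exact this

theorem sum_half (m : ℕ) : ∑ i ∈ Finset.range m, ((i : ℝ) + 1 / 2) = (m : ℝ) ^ 2 / 2 := by
  induction m with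
  | zero => simp
  | succ m ih =>
    rw [Finset.sum_range_succ, ih]
    push_cast
    ring

/-- The polarization inequality for equally spaced points on a circle. -/
theorem circle (s : ℝ) (hs : 0 < s) (N : ℕ) (hN : 1 ≤ N) (L : ℝ) (hL : 0 < L) (Z : ℕ → ℝ)
    (hZ : Monotone Z) (hper : ∀ n, Z (n + N) = Z n + L) :
    ∃ k < N, ∃ y : ℝ, (∀ i < N, 0 < Z (k + i) - y ∧ Z (k + i) - y < L) ∧
      ∑ i ∈ Finset.range N, ((Z (k + i) - y) ^ (-s) + (L - (Z (k + i) - y)) ^ (-s)) ≤
        2 * ∑ i ∈ Finset.range N, (((i : ℝ) + 1 / 2) * (L / N)) ^ (-s) := by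
  have hN0 : (0 : ℝ) < N := by exact_mod_cast hN
  obtain ⟨h, hh⟩ : ∃ h : ℝ, h = L / N := ⟨_, rfl⟩
  have hhpos : 0 < h := by rw [hh]; positivity
  have hhN : h * N = L := by rw [hh]; field_simp
  obtain ⟨A, hA⟩ : ∃ A : ℕ → ℝ, A = fun n => ∑ i ∈ Finset.range n, Z i := ⟨_, rfl⟩
  obtain ⟨y0, hy0⟩ : ∃ y0 : ℝ, y0 = A N / N - L / 2 := ⟨_, rfl⟩
  have hAN : A N = N * y0 + N * L / 2 := by rw [hy0]; field_simp; ring
  obtain ⟨B, hB⟩ : ∃ B : ℕ → ℝ, B = fun n => A n - n * y0 - h * n ^ 2 / 2 := ⟨_, rfl⟩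
  have hAper : ∀ n, A (n + N) = A N + A n + n * L := by
    intro n
    rw [hA]
    simp only
    rw [add_comm n N, Finset.sum_range_add]
    have : ∀ i ∈ Finset.range n, Z (N + i) = Z i + L := by
      intro i _
      rw [add_comm N i]
      exact hper i
    rw [Finset.sum_congr rfl this, Finset.sum_add_distrib]
    simp
    ring
  have hBper : ∀ n, B (n + N) = B n := by
    intro n
    rw [hB]
    simp only
    rw [hAper, hAN]
    push_cast
    have : h * ((n : ℝ) + N) ^ 2 / 2 = h * n ^ 2 / 2 + (h * N) * n + (h * N) * N / 2 := by ring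
    rw [this, hhN]
    ring
  obtain ⟨k, hk, hkmin⟩ := Finset.exists_min_image (Finset.range N) B ⟨0, by simp; omega⟩
  have hk' : k < N := Finset.mem_range.1 hk
  have hmin : ∀ m, B k ≤ B m := by
    intro m
    induction m using Nat.strong_induction_on with
    | _ m ih =>
      by_cases hm : m < N
      · exact hkmin m (Finset.mem_range.2 hm)
      · have := ih (m - N) (by omega)
        have h2 := hBper (m - N)
        rw [Nat.sub_add_cancel (by omega)] at h2
        rw [h2]
        exact this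
  obtain ⟨y, hy⟩ : ∃ y : ℝ, y = y0 + k * h := ⟨_, rfl⟩
  -- partial sums
  have hps : ∀ m, ∑ i ∈ Finset.range m, ((((i : ℝ) + 1 / 2) * h) - (Z (k + i) - y)) =
      B k - B (k + m) := by
    intro m
    rw [Finset.sum_sub_distrib, ← Finset.sum_mul, sum_half, Finset.sum_sub_distrib]
    have h1 : ∑ i ∈ Finset.range m, Z (k + i) = A (k + m) - A k := by
      rw [hA]
      simp only
      rw [Finset.sum_range_add]
      ring
    rw [h1, hB, hy]
    simp
    ring
  have hP : ∀ m, m ≤ N → ∑ i ∈ Finset.range m, ((((i : ℝ) + 1 / 2) * h) - (Z (k + i) - y)) ≤ 0 := by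
    intro m _
    rw [hps]
    linarith [hmin (k + m)]
  have hPN : ∑ i ∈ Finset.range N, ((((i : ℝ) + 1 / 2) * h) - (Z (k + i) - y)) = 0 := by
    rw [hps, hBper]
    ring
  have hlo : ∀ i, h / 2 ≤ Z (k + i) - y := by
    intro i
    have h1 := hP 1 hN
    simp at h1
    have h2 : Z k ≤ Z (k + i) := hZ (by omega)
    linarith
  have hhi : ∀ i < N, Z (k + i) - y ≤ L - h / 2 := by
    intro i hi
    obtain ⟨M, rfl⟩ : ∃ M, N = M + 1 := ⟨N - 1, by omega⟩
    have h1 := hP M (by omega)
    have h2 := hPN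
    rw [Finset.sum_range_succ] at h2
    have h3 : Z (k + i) ≤ Z (k + M) := hZ (by omega)
    have h4 : ((M : ℝ) + 1 / 2) * h = L - h / 2 := by
      rw [← hhN]; push_cast; ring
    linarith
  refine ⟨k, hk', y, fun i hi => ⟨by linarith [hlo i], by linarith [hhi i hi]⟩, ?_⟩
  rw [← hh]
  -- the right side in symmetric form
  have hsym : 2 * ∑ i ∈ Finset.range N, (((i : ℝ) + 1 / 2) * h) ^ (-s) =
      ∑ i ∈ Finset.range N, ((((i : ℝ) + 1 / 2) * h) ^ (-s) + (L - ((i : ℝ) + 1 / 2) * h) ^ (-s)) := by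
    rw [Finset.sum_add_distrib, two_mul]
    congr 1
    rw [← Finset.sum_range_reflect]
    refine Finset.sum_congr rfl fun i hi => ?_
    have hi' : i < N := Finset.mem_range.1 hi
    congr 1
    have : ((N - 1 - i : ℕ) : ℝ) = N - 1 - i := by
      rw [Nat.cast_sub (by omega), Nat.cast_sub (by omega)]
      simp
    rw [this, ← hhN]
    ring
  rw [hsym]
  obtain ⟨D, hD⟩ : ∃ D : ℕ → ℝ, D = fun i =>
    (-s * (Z (k + i) - y) ^ (-s - 1)) + (s * (L - (Z (k + i) - y)) ^ (-s - 1)) := ⟨_, rfl⟩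
  have hab := abel D (fun i => (((i : ℝ) + 1 / 2) * h) - (Z (k + i) - y)) N ?_ hP hPN
  · have hpt : ∀ i ∈ Finset.range N,
        ((Z (k + i) - y) ^ (-s) + (L - (Z (k + i) - y)) ^ (-s)) +
          D i * ((((i : ℝ) + 1 / 2) * h) - (Z (k + i) - y)) ≤
        ((((i : ℝ) + 1 / 2) * h) ^ (-s) + (L - ((i : ℝ) + 1 / 2) * h) ^ (-s)) := by
      intro i hi
      have hi' : i < N := Finset.mem_range.1 hi
      have ha : 0 < Z (k + i) - y := by linarith [hlo i]
      have ha' : 0 < L - (Z (k + i) - y) := by linarith [hhi i hi']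
      have hb : 0 < ((i : ℝ) + 1 / 2) * h := by positivity
      have hb' : 0 < L - ((i : ℝ) + 1 / 2) * h := by
        rw [← hhN]
        have : (i : ℝ) + 1 ≤ N := by exact_mod_cast hi'
        nlinarith
      have t1 := tangent hs ha hb
      have t2 := tangent hs ha' hb'
      rw [hD]
      simp only
      nlinarith [t1, t2]
    have := Finset.sum_le_sum hpt
    rw [Finset.sum_add_distrib] at this
    linarith
  · intro i hi
    have ha : 0 < Z (k + i) - y := by linarith [hlo i]
    have hc : Z (k + i) ≤ Z (k + (i + 1)) := hZ (by omega)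
    have hb' : 0 < L - (Z (k + (i + 1)) - y) := by linarith [hhi (i + 1) hi]
    have h1 : (Z (k + (i + 1)) - y) ^ (-s - 1) ≤ (Z (k + i) - y) ^ (-s - 1) :=
      Real.rpow_le_rpow_of_nonpos ha (by linarith) (by linarith)
    have h2 : (L - (Z (k + i) - y)) ^ (-s - 1) ≤ (L - (Z (k + (i + 1)) - y)) ^ (-s - 1) :=
      Real.rpow_le_rpow_of_nonpos hb' (by linarith) (by linarith)
    rw [hD]
    simp only
    nlinarith

/-- For `N` points of `[0,L]` there is a point of `[0,L]` at which the potential is at most that of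
equally spaced points on a circle at the midpoint. -/
theorem interval (s : ℝ) (hs : 0 < s) (N : ℕ) (hN : 1 ≤ N) (L : ℝ) (hL : 0 < L) (z : Fin N → ℝ)
    (hz : ∀ j, 0 ≤ z j ∧ z j ≤ L) :
    ∃ y : ℝ, 0 ≤ y ∧ y ≤ L ∧ (∀ j, 0 < |y - z j|) ∧
      ∑ j, |y - z j| ^ (-s) ≤ 2 * ∑ i ∈ Finset.range N, (((i : ℝ) + 1 / 2) * (L / N)) ^ (-s) := by
  obtain ⟨w, hw⟩ : ∃ w : Fin N → ℝ, w = z ∘ (Tuple.sort z) := ⟨_, rfl⟩
  have hwm : Monotone w := by rw [hw]; exact Tuple.monotone_sort z
  have hw01 : ∀ j, 0 ≤ w j ∧ w j ≤ L := by rw [hw]; exact fun j => hz _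
  obtain ⟨Z, hZ⟩ : ∃ Z : ℕ → ℝ, Z = fun n => w ⟨n % N, Nat.mod_lt _ (by omega)⟩ + L * (n / N : ℕ) :=
    ⟨_, rfl⟩
  have hZper : ∀ n, Z (n + N) = Z n + L := by
    intro n
    rw [hZ]
    simp only [Nat.add_mod_right]
    rw [Nat.add_div_right _ (by omega)]
    push_cast
    ring
  have hZmono : Monotone Z := by
    apply monotone_nat_of_le_succ
    intro n
    rw [hZ]
    simp only
    by_cases h : (n + 1) % N = 0
    · have h1 : (n + 1) / N = n / N + 1 := by
        rw [Nat.succ_div, if_pos (Nat.dvd_of_mod_eq_zero h)]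
      rw [h1]
      push_cast
      have h2 := (hw01 ⟨n % N, Nat.mod_lt _ (by omega)⟩).2
      have h3 := (hw01 ⟨(n + 1) % N, Nat.mod_lt _ (by omega)⟩).1
      nlinarith
    · have h1 : (n + 1) / N = n / N := by
        rw [Nat.succ_div, if_neg (fun hd => h (Nat.mod_eq_zero_of_dvd hd))]
        simp
      rw [h1]
      have h2 : n % N ≤ (n + 1) % N := by
        have e1 := Nat.mod_add_div n N
        have e2 := Nat.mod_add_div (n + 1) N
        rw [h1] at e2
        omega
      have h3 : w ⟨n % N, Nat.mod_lt _ (by omega)⟩ ≤ w ⟨(n + 1) % N, Nat.mod_lt _ (by omega)⟩ :=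
        hwm h2
      linarith
  obtain ⟨k, hk, y, hy, hsum⟩ := circle s hs N hN L hL Z hZmono hZper
  -- values of Z
  have hZlt : ∀ i (hi : i < N), Z i = w ⟨i, hi⟩ := by
    intro i hi
    rw [hZ]
    simp [Nat.mod_eq_of_lt hi, Nat.div_eq_of_lt hi]
  have hZge : ∀ i (hi : i < N), Z (i + N) = w ⟨i, hi⟩ + L := by
    intro i hi
    rw [hZper, hZlt i hi]
  -- y < Z k <= L
  have hyk := hy 0 (by omega)
  rw [add_zero, hZlt k hk] at hyk
  have hyL : y < L := by linarith [(hw01 ⟨k, hk⟩).2]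
  -- the sum over Fin N of the potential equals the sum over sort
  have hre : ∀ u : ℝ, ∑ j, |u - z j| ^ (-s) = ∑ j, |u - w j| ^ (-s) := by
    intro u
    rw [hw]
    exact (Equiv.sum_comp (Tuple.sort z) (fun j => |u - z j| ^ (-s))).symm
  -- bijection i ↦ (k+i) % N
  have hbij : ∀ g : ℕ → ℝ, ∑ i ∈ Finset.range N, g ((k + i) % N) = ∑ i ∈ Finset.range N, g i := by
    intro g
    refine Finset.sum_bij' (fun i _ => (k + i) % N) (fun i _ => (i + (N - k)) % N) ?_ ?_ ?_ ?_ ?_
    · intro i _; simp; exact Nat.mod_lt _ (by omega)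
    · intro i _; simp; exact Nat.mod_lt _ (by omega)
    · intro i hi
      have hi' : i < N := Finset.mem_range.1 hi
      rw [Nat.mod_add_mod, show k + i + (N - k) = i + N by omega, Nat.add_mod_right,
        Nat.mod_eq_of_lt hi']
    · intro i hi
      have hi' : i < N := Finset.mem_range.1 hi
      rw [Nat.add_mod_mod, show k + (i + (N - k)) = i + N by omega, Nat.add_mod_right,
        Nat.mod_eq_of_lt hi']
    · intro i _; rfl
  -- the choice of the point
  obtain ⟨u, hu0, huL, hu⟩ : ∃ u : ℝ, 0 ≤ u ∧ u ≤ L ∧ ∀ i < N,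
      |u - w ⟨(k + i) % N, Nat.mod_lt _ (by omega)⟩| = Z (k + i) - y ∨
      |u - w ⟨(k + i) % N, Nat.mod_lt _ (by omega)⟩| = L - (Z (k + i) - y) := by
    have case1 : ∀ i, k + i < N → w ⟨(k + i) % N, Nat.mod_lt _ (by omega)⟩ = Z (k + i) := by
      intro i hi
      rw [hZlt (k + i) hi]
      congr 1
      ext
      simp [Nat.mod_eq_of_lt hi]
    have case2 : ∀ i, i < N → N ≤ k + i →
        w ⟨(k + i) % N, Nat.mod_lt _ (by omega)⟩ = Z (k + i) - L := by
      intro i hi hki
      have h1 : k + i = (k + i - N) + N := by omega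
      have h2 : Z (k + i) = w ⟨k + i - N, by omega⟩ + L := by
        conv_lhs => rw [h1]
        exact hZge (k + i - N) (by omega)
      rw [h2]
      have h3 : (k + i) % N = k + i - N := by
        rw [Nat.mod_eq_sub_mod hki, Nat.mod_eq_of_lt (by omega)]
      simp [h3]
    by_cases hy0 : 0 ≤ y
    · refine ⟨y, hy0, hyL.le, fun i hi => ?_⟩
      obtain ⟨a1, a2⟩ := hy i hi
      by_cases hki : k + i < N
      · left
        rw [case1 i hki, abs_sub_comm, abs_of_pos a1]
      · right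
        rw [case2 i hi (by omega), abs_of_pos (by linarith)]
        ring
    · push Not at hy0
      have hk0 : k = 0 := by
        by_contra hk0
        have h1 := (hy (N - 1) (by omega)).2
        have h2 : k + (N - 1) = (k - 1) + N := by omega
        rw [h2, hZge (k - 1) (by omega)] at h1
        have := (hw01 ⟨k - 1, by omega⟩).1
        linarith
      refine ⟨y + L, ?_, by linarith, fun i hi => ?_⟩
      · have h1 := (hy (N - 1) (by omega)).2
        rw [hk0, zero_add, hZlt (N - 1) (by omega)] at h1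
        have := (hw01 ⟨N - 1, by omega⟩).1
        linarith
      · right
        have h2 := case1 i (by omega)
        rw [h2]
        have := (hy i hi).2
        rw [abs_of_pos (by linarith)]
        ring
  refine ⟨u, hu0, huL, ?_, ?_⟩
  · have hpos : ∀ j : Fin N, 0 < |u - w j| := by
      intro j
      obtain ⟨i, hi, hij⟩ : ∃ i < N, (k + i) % N = j := by
        refine ⟨(j + (N - k)) % N, Nat.mod_lt _ (by omega), ?_⟩
        rw [Nat.add_mod_mod, show k + (j + (N - k)) = j + N by omega, Nat.add_mod_right,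
          Nat.mod_eq_of_lt j.2]
      have h1 := hu i hi
      have h2 : (⟨(k + i) % N, Nat.mod_lt _ (by omega)⟩ : Fin N) = j := by
        ext; exact hij
      rw [h2] at h1
      obtain ⟨a1, a2⟩ := hy i hi
      rcases h1 with h1 | h1 <;> rw [h1] <;> linarith
    intro j
    have := hpos ((Tuple.sort z).symm j)
    rw [hw] at this
    simpa using this
  · rw [hre]
    refine le_trans ?_ hsum
    have e1 : ∑ j, |u - w j| ^ (-s) = ∑ i ∈ Finset.range N,
        (if h : i < N then |u - w ⟨i, h⟩| ^ (-s) else 0) := by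
      rw [Finset.sum_range]
      refine Finset.sum_congr rfl fun j _ => ?_
      simp
    rw [e1, ← hbij (fun i => if h : i < N then |u - w ⟨i, h⟩| ^ (-s) else 0)]
    refine Finset.sum_le_sum fun i hi => ?_
    have hi' : i < N := Finset.mem_range.1 hi
    have hm : (k + i) % N < N := Nat.mod_lt _ (by omega)
    simp only [hm, dif_pos]
    obtain ⟨a1, a2⟩ := hy i hi'
    have p1 : 0 < (Z (k + i) - y) ^ (-s) := Real.rpow_pos_of_pos a1 _
    have p2 : 0 < (L - (Z (k + i) - y)) ^ (-s) := Real.rpow_pos_of_pos (by linarith) _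
    rcases hu i hi' with h1 | h1 <;> rw [h1] <;> linarith

end Pool.Agent.TH331.Pol
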