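import Pool.Agent.TH331.PolA

set_option autoImplicit false
open Filter Topology MeasureTheory
open scoped ENNReal

namespace Pool.Agent.TH331.Pol

/-- the map which collapses the gaps of `K` -/
noncomputable def phi (K : Set ℝ) (x : ℝ) : ℝ := (volume (K ∩ Set.Iic x)).toReal

theorem phi_le_add {K : Set ℝ} (hK : IsCompact K) {x y : ℝ} (hxy : x ≤ y) :
    phi K x ≤ phi K y ∧ phi K y ≤ phi K x + (y - x) := by
  have hfin : ∀ S : Set ℝ, volume (K ∩ S) ≠ ∞ := fun S =>
    ne_top_of_le_ne_top hK.measure_lt_top.ne (measure_mono Set.inter_subset_left)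
  constructor
  · unfold phi
    apply ENNReal.toReal_mono (hfin _)
    apply measure_mono
    intro z hz
    exact ⟨hz.1, le_trans hz.2 hxy⟩
  · unfold phi
    have h1 : volume (K ∩ Set.Iic y) ≤ volume (K ∩ Set.Iic x) + ENNReal.ofReal (y - x) := by
      have h2 : K ∩ Set.Iic y ⊆ (K ∩ Set.Iic x) ∪ Set.Ioc x y := by
        intro z hz
        by_cases h : z ≤ x
        · exact Or.inl ⟨hz.1, h⟩
        · exact Or.inr ⟨not_le.1 h, hz.2⟩
      calc volume (K ∩ Set.Iic y) ≤ volume ((K ∩ Set.Iic x) ∪ Set.Ioc x y) := measure_mono h2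
        _ ≤ volume (K ∩ Set.Iic x) + volume (Set.Ioc x y) := measure_union_le _ _
        _ = _ := by rw [Real.volume_Ioc]
    have h3 := ENNReal.toReal_mono (ENNReal.add_ne_top.2 ⟨hfin _, ENNReal.ofReal_ne_top⟩) h1
    rw [ENNReal.toReal_add (hfin _) ENNReal.ofReal_ne_top,
      ENNReal.toReal_ofReal (by linarith)] at h3
    exact h3

theorem phi_lip {K : Set ℝ} (hK : IsCompact K) (x y : ℝ) : |phi K y - phi K x| ≤ |y - x| := by
  rcases le_total x y with h | h
  · obtain ⟨h1, h2⟩ := phi_le_add hK h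
    rw [abs_of_nonneg (by linarith), abs_of_nonneg (by linarith)]
    linarith
  · obtain ⟨h1, h2⟩ := phi_le_add hK h
    rw [abs_of_nonpos (by linarith), abs_of_nonpos (by linarith)]
    linarith

theorem phi_bounds {K : Set ℝ} (hK : IsCompact K) (x : ℝ) :
    0 ≤ phi K x ∧ phi K x ≤ (volume K).toReal := by
  refine ⟨ENNReal.toReal_nonneg, ?_⟩
  unfold phi
  exact ENNReal.toReal_mono hK.measure_lt_top.ne (measure_mono Set.inter_subset_left)

theorem phi_surj {K : Set ℝ} (hK : IsCompact K) (hne : K.Nonempty) {t : ℝ} (h0 : 0 ≤ t)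
    (h1 : t ≤ (volume K).toReal) : ∃ p ∈ K, phi K p = t := by
  have hcont : Continuous (phi K) := by
    rw [Metric.continuous_iff]
    intro b ε hε
    refine ⟨ε, hε, fun a ha => ?_⟩
    rw [Real.dist_eq] at ha ⊢
    exact lt_of_le_of_lt (phi_lip hK b a) ha
  obtain ⟨m, hm, hmin⟩ := hK.exists_isMinOn hne continuous_id.continuousOn
  obtain ⟨M, hM, hmax⟩ := hK.exists_isMaxOn hne continuous_id.continuousOn
  have hmin' : ∀ z ∈ K, m ≤ z := fun z hz => hmin hz
  have hmax' : ∀ z ∈ K, z ≤ M := fun z hz => hmax hz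
  have hphim : phi K m = 0 := by
    unfold phi
    have : K ∩ Set.Iic m ⊆ {m} := by
      intro z hz
      exact le_antisymm hz.2 (hmin' z hz.1)
    have h2 : volume (K ∩ Set.Iic m) = 0 := measure_mono_null this (by simp)
    rw [h2]
    simp
  have hphiM : phi K M = (volume K).toReal := by
    unfold phi
    congr 2
    ext z
    constructor
    · exact fun h => h.1
    · exact fun h => ⟨h, hmax' z h⟩
  have hmM : m ≤ M := hmin' M hM
  have hiv := intermediate_value_Icc hmM hcont.continuousOn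
  rw [hphim, hphiM] at hiv
  obtain ⟨y, hy, hyt⟩ := hiv ⟨h0, h1⟩
  -- the largest point of `K` below `y`
  have hK' : IsCompact (K ∩ Set.Iic y) := hK.inter_right isClosed_Iic
  obtain ⟨p, hp, hpmax⟩ := hK'.exists_isMaxOn ⟨m, hm, hy.1⟩ continuous_id.continuousOn
  refine ⟨p, hp.1, ?_⟩
  rw [← hyt]
  unfold phi
  congr 2
  ext z
  constructor
  · intro h
    have h1 : z ≤ p := h.2
    have h2 : p ≤ y := hp.2
    exact ⟨h.1, h1.trans h2⟩
  · exact fun h => ⟨h.1, hpmax h⟩

/-- the constant `2 ∑ (k + 1/2)^(-s)` -/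
noncomputable def cc (s : ℝ) : ℝ := 2 * ∑' i : ℕ, ((i : ℝ) + 1 / 2) ^ (-s)

theorem summable_half {s : ℝ} (hs : 1 < s) : Summable (fun i : ℕ => ((i : ℝ) + 1 / 2) ^ (-s)) := by
  have h1 : Summable (fun i : ℕ => (2 : ℝ) ^ s * ((i : ℝ) + 1) ^ (-s)) := by
    apply Summable.mul_left
    have := (summable_nat_add_iff 1).2 (Real.summable_nat_rpow.2 (show -s < -1 by linarith))
    simpa using this
  refine Summable.of_nonneg_of_le (fun i => by positivity) (fun i => ?_) h1
  have h2 : (2 : ℝ) ^ s * ((i : ℝ) + 1) ^ (-s) = (((i : ℝ) + 1) / 2) ^ (-s) := by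
    rw [Real.div_rpow (by positivity) (by norm_num), Real.rpow_neg (by norm_num : (0 : ℝ) ≤ 2)]
    field_simp
  rw [h2]
  apply Real.rpow_le_rpow_of_nonpos (by positivity) ?_ (by linarith)
  have : (0 : ℝ) ≤ i := Nat.cast_nonneg i
  linarith

theorem cc_pos {s : ℝ} (hs : 1 < s) : 0 < cc s := by
  unfold cc
  have h : 0 < ∑' i : ℕ, ((i : ℝ) + 1 / 2) ^ (-s) :=
    (summable_half hs).tsum_pos (fun i => by positivity) 0 (by positivity)
  linarith

/-- the polarization functional -/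
noncomputable def pol (K : Set ℝ) (s : ℝ) (N : ℕ) : ℝ≥0∞ :=
  ⨆ (x : Fin N → ℝ) (_ : ∀ i, x i ∈ K), ⨅ y ∈ K, ∑ j, (ENNReal.ofReal |y - x j|) ^ (-s)

theorem pol_upper {K : Set ℝ} (hK : IsCompact K) (hpos : 0 < (volume K).toReal)
    {s : ℝ} (hs : 1 < s) {N : ℕ} (hN : 1 ≤ N) :
    pol K s N ≤ ENNReal.ofReal (cc s * ((volume K).toReal / N) ^ (-s)) := by
  have hne : K.Nonempty := by
    by_contra h
    rw [Set.not_nonempty_iff_eq_empty] at h
    rw [h] at hpos
    simp at hpos
  unfold pol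
  refine iSup₂_le fun x hx => ?_
  obtain ⟨y, hy0, hyL, hyp, hsum⟩ := interval s (by linarith) N hN (volume K).toReal hpos
    (fun j => phi K (x j)) (fun j => phi_bounds hK _)
  obtain ⟨p, hp, hpy⟩ := phi_surj hK hne hy0 hyL
  refine (iInf₂_le p hp).trans ?_
  have hN0 : (0 : ℝ) < N := by exact_mod_cast hN
  have h1 : ∀ j, (ENNReal.ofReal |p - x j|) ^ (-s) ≤ ENNReal.ofReal (|y - phi K (x j)| ^ (-s)) := by
    intro j
    have h2 : |y - phi K (x j)| ≤ |p - x j| := by
      rw [← hpy]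
      exact phi_lip hK _ _
    have h3 := hyp j
    rw [← ENNReal.ofReal_rpow_of_pos h3]
    rw [ENNReal.rpow_neg, ENNReal.rpow_neg]
    exact ENNReal.inv_le_inv.2 (ENNReal.rpow_le_rpow (ENNReal.ofReal_le_ofReal h2) (by linarith))
  calc ∑ j, (ENNReal.ofReal |p - x j|) ^ (-s)
      ≤ ∑ j, ENNReal.ofReal (|y - phi K (x j)| ^ (-s)) := Finset.sum_le_sum fun j _ => h1 j
    _ = ENNReal.ofReal (∑ j, |y - phi K (x j)| ^ (-s)) := by
        rw [ENNReal.ofReal_sum_of_nonneg]
        intro j _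
        positivity
    _ ≤ ENNReal.ofReal (cc s * ((volume K).toReal / N) ^ (-s)) := by
        apply ENNReal.ofReal_le_ofReal
        refine hsum.trans ?_
        have h4 : ∀ i : ℕ, (((i : ℝ) + 1 / 2) * ((volume K).toReal / N)) ^ (-s) =
            ((i : ℝ) + 1 / 2) ^ (-s) * ((volume K).toReal / N) ^ (-s) := by
          intro i
          rw [Real.mul_rpow (by positivity) (by positivity)]
        simp_rw [h4]
        rw [← Finset.sum_mul, ← mul_assoc]
        have h5 : ∑ i ∈ Finset.range N, ((i : ℝ) + 1 / 2) ^ (-s) ≤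
            ∑' i : ℕ, ((i : ℝ) + 1 / 2) ^ (-s) :=
          (summable_half hs).sum_le_tsum _ (fun i _ => by positivity)
        unfold cc
        gcongr

end Pool.Agent.TH331.Pol
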