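import Pool.Agent.TH331.PolB

set_option autoImplicit false
open Filter Topology MeasureTheory
open scoped ENNReal

namespace Pool.Agent.TH331.Pol

/-- grid points -/
noncomputable def gp (h : ℝ) (r : ℤ) : ℝ := ((r : ℝ) + 1 / 2) * h

theorem gp_dist (h : ℝ) (hh : 0 < h) (r r' : ℤ) (hr : r < r') : gp h r + h ≤ gp h r' := by
  unfold gp
  have : (r : ℝ) + 1 ≤ r' := by exact_mod_cast hr
  nlinarith

theorem infDist_thick {K : Set ℝ} (hne : K.Nonempty) {D e x z : ℝ}
    (hx : Metric.infDist x K ≤ D) (hxz : |z - x| ≤ e) : z ∈ Metric.cthickening (D + e) K := by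
  rw [Metric.mem_cthickening_iff]
  have h1 : Metric.infDist z K ≤ D + e := by
    have := Metric.infDist_le_infDist_add_dist (s := K) (x := z) (y := x)
    rw [Real.dist_eq] at this
    linarith
  have h2 : Metric.infEDist z K = ENNReal.ofReal (Metric.infDist z K) := by
    unfold Metric.infDist
    rw [ENNReal.ofReal_toReal (Metric.infEDist_ne_top hne)]
  rw [h2]
  exact ENNReal.ofReal_le_ofReal h1

theorem count_all {K : Set ℝ} (hK : IsCompact K) (hne : K.Nonempty) {h D : ℝ} (hh : 0 < h)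
    (F : Finset ℤ) (hF : ∀ r ∈ F, Metric.infDist (gp h r) K ≤ D) :
    (F.card : ℝ) * h ≤ (volume (Metric.cthickening (D + h / 2) K)).toReal := by
  have hfin : volume (Metric.cthickening (D + h / 2) K) ≠ ∞ :=
    (hK.cthickening).measure_lt_top.ne
  have hdis : (F : Set ℤ).PairwiseDisjoint (fun r => Set.Ioo (gp h r - h / 2) (gp h r + h / 2)) := by
    have key : ∀ r r' : ℤ, r < r' → Disjoint (Set.Ioo (gp h r - h / 2) (gp h r + h / 2))
        (Set.Ioo (gp h r' - h / 2) (gp h r' + h / 2)) := by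
      intro r r' hr
      rw [Set.disjoint_left]
      intro z hz hz'
      have := gp_dist h hh r r' hr
      have h1 := hz.2
      have h2 := hz'.1
      linarith
    intro r _ r' _ hrr'
    rcases lt_or_gt_of_ne hrr' with hlt | hlt
    · exact key r r' hlt
    · exact (key r' r hlt).symm
  have h1 : volume (⋃ r ∈ F, Set.Ioo (gp h r - h / 2) (gp h r + h / 2)) =
      ∑ r ∈ F, volume (Set.Ioo (gp h r - h / 2) (gp h r + h / 2)) :=
    measure_biUnion_finset hdis (fun _ _ => measurableSet_Ioo)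
  have h2 : ∑ r ∈ F, volume (Set.Ioo (gp h r - h / 2) (gp h r + h / 2)) =
      ENNReal.ofReal ((F.card : ℝ) * h) := by
    have : ∀ r ∈ F, volume (Set.Ioo (gp h r - h / 2) (gp h r + h / 2)) = ENNReal.ofReal h := by
      intro r _
      rw [Real.volume_Ioo]
      congr 1
      ring
    rw [Finset.sum_congr rfl this, Finset.sum_const, nsmul_eq_mul,
      ENNReal.ofReal_mul (Nat.cast_nonneg _), ENNReal.ofReal_natCast]
  have h3 : (⋃ r ∈ F, Set.Ioo (gp h r - h / 2) (gp h r + h / 2)) ⊆
      Metric.cthickening (D + h / 2) K := by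
    intro z hz
    simp only [Set.mem_iUnion] at hz
    obtain ⟨r, hr, hz⟩ := hz
    apply infDist_thick hne (hF r hr)
    rw [abs_le]
    constructor <;> linarith [hz.1, hz.2]
  have h4 := measure_mono (μ := volume) h3
  rw [h1, h2] at h4
  have h5 := ENNReal.toReal_mono hfin h4
  rwa [ENNReal.toReal_ofReal (by positivity)] at h5

theorem count_bad {K : Set ℝ} (hK : IsCompact K) (hne : K.Nonempty) {h D δ : ℝ} (hh : 0 < h)
    (hδ : 0 < δ) (hδ2 : δ ≤ 1 / 2)
    (F : Finset ℤ) (hF : ∀ r ∈ F, Metric.infDist (gp h r) K ≤ D)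
    (hF' : ∀ r ∈ F, δ * h < Metric.infDist (gp h r) K) :
    (F.card : ℝ) * (2 * δ * h) ≤
      (volume (Metric.cthickening (D + h / 2) K)).toReal - (volume K).toReal := by
  have hfin : volume (Metric.cthickening (D + h / 2) K) ≠ ∞ :=
    (hK.cthickening).measure_lt_top.ne
  have hdis : (F : Set ℤ).PairwiseDisjoint (fun r => Set.Ioo (gp h r - δ * h) (gp h r + δ * h)) := by
    have key : ∀ r r' : ℤ, r < r' → Disjoint (Set.Ioo (gp h r - δ * h) (gp h r + δ * h))
        (Set.Ioo (gp h r' - δ * h) (gp h r' + δ * h)) := by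
      intro r r' hr
      rw [Set.disjoint_left]
      intro z hz hz'
      have := gp_dist h hh r r' hr
      have h1 := hz.2
      have h2 := hz'.1
      nlinarith
    intro r _ r' _ hrr'
    rcases lt_or_gt_of_ne hrr' with hlt | hlt
    · exact key r r' hlt
    · exact (key r' r hlt).symm
  have h1 : volume (⋃ r ∈ F, Set.Ioo (gp h r - δ * h) (gp h r + δ * h)) =
      ∑ r ∈ F, volume (Set.Ioo (gp h r - δ * h) (gp h r + δ * h)) :=
    measure_biUnion_finset hdis (fun _ _ => measurableSet_Ioo)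
  have h2 : ∑ r ∈ F, volume (Set.Ioo (gp h r - δ * h) (gp h r + δ * h)) =
      ENNReal.ofReal ((F.card : ℝ) * (2 * δ * h)) := by
    have : ∀ r ∈ F, volume (Set.Ioo (gp h r - δ * h) (gp h r + δ * h)) =
        ENNReal.ofReal (2 * δ * h) := by
      intro r _
      rw [Real.volume_Ioo]
      congr 1
      ring
    rw [Finset.sum_congr rfl this, Finset.sum_const, nsmul_eq_mul,
      ENNReal.ofReal_mul (Nat.cast_nonneg _), ENNReal.ofReal_natCast]
  have hdK : Disjoint K (⋃ r ∈ F, Set.Ioo (gp h r - δ * h) (gp h r + δ * h)) := by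
    rw [Set.disjoint_left]
    intro z hzK hz
    simp only [Set.mem_iUnion] at hz
    obtain ⟨r, hr, hz⟩ := hz
    have e1 := hF' r hr
    have e2 := Metric.infDist_le_dist_of_mem (x := gp h r) hzK
    rw [Real.dist_eq] at e2
    have e3 : |gp h r - z| < δ * h := by
      rw [abs_lt]
      constructor <;> linarith [hz.1, hz.2]
    linarith
  have h3 : K ∪ (⋃ r ∈ F, Set.Ioo (gp h r - δ * h) (gp h r + δ * h)) ⊆
      Metric.cthickening (D + h / 2) K := by
    rintro z (hz | hz)
    · exact Metric.self_subset_cthickening K hz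
    simp only [Set.mem_iUnion] at hz
    obtain ⟨r, hr, hz⟩ := hz
    apply infDist_thick hne (hF r hr)
    have : δ * h ≤ h / 2 := by nlinarith
    rw [abs_le]
    constructor <;> linarith [hz.1, hz.2]
  have h4 := measure_mono (μ := volume) h3
  rw [measure_union hdK (Finset.measurableSet_biUnion _ fun _ _ => measurableSet_Ioo), h1, h2] at h4
  have h5 := ENNReal.toReal_mono hfin h4
  rw [ENNReal.toReal_add hK.measure_lt_top.ne ENNReal.ofReal_ne_top,
    ENNReal.toReal_ofReal (by positivity)] at h5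
  linarith

theorem midpoint_ineq {s a b M : ℝ} (hs : 0 < s) (ha : 0 < a) (hb : 0 < b) (hM : a + b = 2 * M) :
    2 * M ^ (-s) ≤ a ^ (-s) + b ^ (-s) := by
  have hM0 : 0 < M := by linarith
  have h1 := tangent hs hM0 ha
  have h2 := tangent hs hM0 hb
  have h3 : (-s * M ^ (-s - 1)) * (a - M) + (-s * M ^ (-s - 1)) * (b - M) = 0 := by
    rw [← mul_add]
    have : a - M + (b - M) = 0 := by linarith
    rw [this, mul_zero]
  linarith

theorem ker_ge {s d e : ℝ} (hs : 0 < s) (hde : d ≤ e) (he : 0 < e) :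
    ENNReal.ofReal (e ^ (-s)) ≤ (ENNReal.ofReal d) ^ (-s) := by
  rw [← ENNReal.ofReal_rpow_of_pos he, ENNReal.rpow_neg, ENNReal.rpow_neg]
  exact ENNReal.inv_le_inv.2 (ENNReal.rpow_le_rpow (ENNReal.ofReal_le_ofReal hde) hs.le)

/-- the truncated sum -/
noncomputable def TT (s : ℝ) (C : ℕ) (δ : ℝ) : ℝ :=
  2 * ∑ k ∈ Finset.range C, ((k : ℝ) + 1 / 2 + δ) ^ (-s)

theorem pol_lower {K : Set ℝ} (hK : IsCompact K) (hne : K.Nonempty) {s : ℝ} (hs : 1 < s)
    {h δ : ℝ} {C m N : ℕ} (hh : 0 < h) (hδ : 0 < δ) (hC : 1 ≤ C)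
    (hm : TT s C δ * (2 * C) ^ s ≤ m) (R B : Finset ℤ)
    (hR : ∀ r : ℤ, r ∈ R ↔ Metric.infDist (gp h r) K ≤ C * h)
    (hB : ∀ r : ℤ, r ∈ B ↔ r ∈ R ∧ δ * h < Metric.infDist (gp h r) K)
    (hN : R.card + B.card * m ≤ N) :
    ENNReal.ofReal (h ^ (-s) * TT s C δ) ≤ pol K s N := by
  classical
  have hs0 : 0 < s := by linarith
  have hC1 : (1 : ℝ) ≤ C := by exact_mod_cast hC
  have hnear : ∀ r : ℤ, ∃ p ∈ K, Metric.infDist (gp h r) K = dist (gp h r) p :=
    fun r => hK.exists_infDist_eq_dist hne _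
  choose π hπK hπ using hnear
  obtain ⟨k0, hk0⟩ := hne
  -- the index type
  let ι := R ⊕ (B × Fin m)
  have hcard : Fintype.card ι ≤ Fintype.card (Fin N) := by
    simp only [ι, Fintype.card_sum, Fintype.card_prod, Fintype.card_coe, Fintype.card_fin]
    exact hN
  obtain ⟨e⟩ := Function.Embedding.nonempty_of_card_le hcard
  let p : ι → ℝ := Sum.elim (fun r => π r) (fun b => π b.1)
  have hp : ∀ i, p i ∈ K := by
    rintro (r | b)
    · exact hπK _
    · exact hπK _
  let x : Fin N → ℝ := Function.extend e p (fun _ => k0)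
  have hx : ∀ j, x j ∈ K := by
    intro j
    by_cases hj : ∃ i, e i = j
    · obtain ⟨i, rfl⟩ := hj
      show Function.extend e p (fun _ => k0) (e i) ∈ K
      rw [e.injective.extend_apply]
      exact hp i
    · show Function.extend e p (fun _ => k0) j ∈ K
      rw [Function.extend_apply' _ _ _ hj]
      exact hk0
  have hsum : ∀ f : ℝ → ℝ≥0∞, ∑ r ∈ R, f (π r) + ∑ b ∈ B, (m : ℝ≥0∞) * f (π b) ≤ ∑ j, f (x j) := by
    intro f
    have h1 : ∑ i : ι, f (p i) ≤ ∑ j, f (x j) := by
      have h2 : ∑ i : ι, f (p i) = ∑ j ∈ Finset.univ.map e, f (x j) := by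
        rw [Finset.sum_map]
        refine Finset.sum_congr rfl fun i _ => ?_
        show f (p i) = f (Function.extend e p (fun _ => k0) (e i))
        rw [e.injective.extend_apply]
      rw [h2]
      exact Finset.sum_le_sum_of_subset (Finset.subset_univ _)
    refine le_trans (le_of_eq ?_) h1
    rw [Fintype.sum_sum_type]
    congr 1
    · show ∑ r ∈ R, f (π r) = ∑ r : R, f (π r)
      rw [Finset.sum_coe_sort R (fun r => f (π r))]
    · show ∑ b ∈ B, (m : ℝ≥0∞) * f (π b) = ∑ b : B × Fin m, f (π b.1)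
      rw [Fintype.sum_prod_type]
      simp only [Finset.sum_const, Finset.card_univ, Fintype.card_fin, nsmul_eq_mul]
      rw [Finset.sum_coe_sort B (fun r => (m : ℝ≥0∞) * f (π r))]
  have hTpos : 0 ≤ TT s C δ := by
    unfold TT
    have : 0 ≤ ∑ k ∈ Finset.range C, ((k : ℝ) + 1 / 2 + δ) ^ (-s) :=
      Finset.sum_nonneg fun k _ => by positivity
    linarith
  unfold pol
  refine le_trans ?_ (le_iSup₂ (f := fun (x : Fin N → ℝ) (_ : ∀ i, x i ∈ K) =>
    ⨅ y ∈ K, ∑ j, (ENNReal.ofReal |y - x j|) ^ (-s)) x hx)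
  refine le_iInf₂ fun y hy => ?_
  refine le_trans ?_ (hsum (fun z => (ENNReal.ofReal |y - z|) ^ (-s)))
  by_cases hcase : ∃ r : ℤ, |y - gp h r| ≤ C * h ∧ δ * h < Metric.infDist (gp h r) K
  · obtain ⟨r, hr1, hr2⟩ := hcase
    have hd : Metric.infDist (gp h r) K ≤ |y - gp h r| := by
      have := Metric.infDist_le_dist_of_mem (x := gp h r) hy
      rwa [Real.dist_eq, abs_sub_comm] at this
    have hrR : r ∈ R := (hR r).2 (by linarith)
    have hrB : r ∈ B := (hB r).2 ⟨hrR, hr2⟩
    have h1 : |y - π r| ≤ 2 * C * h := by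
      have e1 : |y - π r| ≤ |y - gp h r| + |gp h r - π r| := abs_sub_le _ _ _
      have e2 : |gp h r - π r| = Metric.infDist (gp h r) K := by rw [hπ r, Real.dist_eq]
      linarith
    have h2 : ENNReal.ofReal ((2 * C * h) ^ (-s)) ≤ (ENNReal.ofReal |y - π r|) ^ (-s) :=
      ker_ge hs0 h1 (by positivity)
    have h3 : (m : ℝ≥0∞) * (ENNReal.ofReal |y - π r|) ^ (-s) ≤
        ∑ b ∈ B, (m : ℝ≥0∞) * (ENNReal.ofReal |y - π b|) ^ (-s) :=
      Finset.single_le_sum (f := fun b => (m : ℝ≥0∞) * (ENNReal.ofReal |y - π b|) ^ (-s))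
        (fun _ _ => zero_le) hrB
    refine le_trans ?_ (le_trans h3 le_add_self)
    refine le_trans ?_ (mul_le_mul_right h2 _)
    rw [← ENNReal.ofReal_natCast m, ← ENNReal.ofReal_mul (Nat.cast_nonneg _)]
    apply ENNReal.ofReal_le_ofReal
    rw [Real.mul_rpow (by positivity) hh.le]
    have h4 : (2 * (C : ℝ)) ^ s * (2 * (C : ℝ)) ^ (-s) = 1 := by
      rw [← Real.rpow_add (by positivity)]
      simp
    have h5 : 0 < h ^ (-s) := Real.rpow_pos_of_pos hh _
    have h6 : 0 < (2 * (C : ℝ)) ^ (-s) := Real.rpow_pos_of_pos (by positivity) _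
    calc h ^ (-s) * TT s C δ = (TT s C δ * (2 * C) ^ s) * ((2 * C) ^ (-s) * h ^ (-s)) := by
          rw [mul_assoc (TT s C δ), ← mul_assoc ((2 * (C : ℝ)) ^ s), h4]; ring
      _ ≤ m * ((2 * C) ^ (-s) * h ^ (-s)) := by gcongr
  · push Not at hcase
    obtain ⟨r0, hr0⟩ : ∃ r0 : ℤ, r0 = ⌊y / h - 1 / 2⌋ := ⟨_, rfl⟩
    obtain ⟨θ, hθ⟩ : ∃ θ : ℝ, θ = y / h - 1 / 2 - r0 := ⟨_, rfl⟩
    have hθ0 : 0 ≤ θ := by
      rw [hθ, hr0]; linarith [Int.floor_le (y / h - 1 / 2)]
    have hθ1 : θ < 1 := by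
      rw [hθ, hr0]; linarith [Int.lt_floor_add_one (y / h - 1 / 2)]
    have hy' : y = (θ + 1 / 2 + r0) * h := by
      rw [hθ]; field_simp; ring
    have hgood : ∀ r : ℤ, |y - gp h r| ≤ C * h → r ∈ R ∧ |y - π r| ≤ |y - gp h r| + δ * h := by
      intro r hr
      have hd : Metric.infDist (gp h r) K ≤ |y - gp h r| := by
        have := Metric.infDist_le_dist_of_mem (x := gp h r) hy
        rwa [Real.dist_eq, abs_sub_comm] at this
      refine ⟨(hR r).2 (by linarith), ?_⟩
      have e1 : |y - π r| ≤ |y - gp h r| + |gp h r - π r| := abs_sub_le _ _ _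
      have e2 : |gp h r - π r| = Metric.infDist (gp h r) K := by rw [hπ r, Real.dist_eq]
      linarith [hcase r hr]
    have hleft : ∀ k ∈ Finset.range C, |y - gp h (r0 - k)| = (θ + k) * h ∧ (θ + k) * h ≤ C * h := by
      intro k hk
      have hk' : (k : ℝ) + 1 ≤ C := by exact_mod_cast Finset.mem_range.1 hk
      have e1 : y - gp h (r0 - k) = (θ + k) * h := by
        unfold gp
        rw [hy']
        push_cast
        ring
      constructor
      · rw [e1, abs_of_nonneg (by positivity)]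
      · apply mul_le_mul_of_nonneg_right _ hh.le
        linarith
    have hright : ∀ k ∈ Finset.range C, |y - gp h (r0 + 1 + k)| = (1 - θ + k) * h ∧
        (1 - θ + k) * h ≤ C * h := by
      intro k hk
      have hk' : (k : ℝ) + 1 ≤ C := by exact_mod_cast Finset.mem_range.1 hk
      have hk0 : (0 : ℝ) ≤ k := Nat.cast_nonneg k
      have e1 : y - gp h (r0 + 1 + k) = -((1 - θ + k) * h) := by
        unfold gp
        rw [hy']
        push_cast
        ring
      constructor
      · rw [e1, abs_neg, abs_of_nonneg]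
        apply mul_nonneg _ hh.le
        linarith
      · apply mul_le_mul_of_nonneg_right _ hh.le
        linarith
    have himg : (Finset.range C).image (fun k : ℕ => r0 - (k : ℤ)) ∪
        (Finset.range C).image (fun k : ℕ => r0 + 1 + (k : ℤ)) ⊆ R := by
      intro r hr
      rw [Finset.mem_union, Finset.mem_image, Finset.mem_image] at hr
      rcases hr with ⟨k, hk, rfl⟩ | ⟨k, hk, rfl⟩
      · exact (hgood _ (by rw [(hleft k hk).1]; exact (hleft k hk).2)).1
      · exact (hgood _ (by rw [(hright k hk).1]; exact (hright k hk).2)).1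
    have hdisj : Disjoint ((Finset.range C).image (fun k : ℕ => r0 - (k : ℤ)))
        ((Finset.range C).image (fun k : ℕ => r0 + 1 + (k : ℤ))) := by
      rw [Finset.disjoint_left]
      intro r hr hr'
      rw [Finset.mem_image] at hr hr'
      obtain ⟨k, _, rfl⟩ := hr
      obtain ⟨k', _, h'⟩ := hr'
      omega
    have hstep : ∑ k ∈ Finset.range C, (ENNReal.ofReal |y - π (r0 - k)|) ^ (-s) +
        ∑ k ∈ Finset.range C, (ENNReal.ofReal |y - π (r0 + 1 + k)|) ^ (-s) ≤
        ∑ r ∈ R, (ENNReal.ofReal |y - π r|) ^ (-s) := by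
      refine le_trans (le_of_eq ?_) (Finset.sum_le_sum_of_subset himg)
      rw [Finset.sum_union hdisj, Finset.sum_image, Finset.sum_image]
      · intro a _ b _ hab
        simp only at hab
        omega
      · intro a _ b _ hab
        simp only at hab
        omega
    refine le_trans ?_ (le_trans hstep le_self_add)
    rw [← Finset.sum_add_distrib]
    have hfin : h ^ (-s) * TT s C δ = ∑ k ∈ Finset.range C, 2 * (((k : ℝ) + 1 / 2 + δ) * h) ^ (-s) := by
      unfold TT
      rw [mul_left_comm, Finset.mul_sum, Finset.mul_sum]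
      refine Finset.sum_congr rfl fun k _ => ?_
      rw [Real.mul_rpow (by positivity) hh.le]
      ring
    rw [hfin, ENNReal.ofReal_sum_of_nonneg (fun k _ => by positivity)]
    refine Finset.sum_le_sum fun k hk => ?_
    have hk0 : (0 : ℝ) ≤ k := Nat.cast_nonneg k
    have a1 : |y - π (r0 - k)| ≤ (θ + k + δ) * h := by
      have := (hgood (r0 - k) (by rw [(hleft k hk).1]; exact (hleft k hk).2)).2
      rw [(hleft k hk).1] at this
      linarith
    have a2 : |y - π (r0 + 1 + k)| ≤ (1 - θ + k + δ) * h := by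
      have := (hgood (r0 + 1 + k) (by rw [(hright k hk).1]; exact (hright k hk).2)).2
      rw [(hright k hk).1] at this
      linarith
    have p1 : 0 < (θ + k + δ) * h := by positivity
    have p2 : 0 < (1 - θ + k + δ) * h := by
      apply mul_pos _ hh
      linarith
    have b1 := ker_ge hs0 a1 p1
    have b2 := ker_ge hs0 a2 p2
    refine le_trans ?_ (add_le_add b1 b2)
    rw [← ENNReal.ofReal_add (by positivity) (by positivity)]
    apply ENNReal.ofReal_le_ofReal
    exact midpoint_ineq hs0 p1 p2 (by ring)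

end Pool.Agent.TH331.Pol
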