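import Pool.Agent.TH331.PolC

set_option autoImplicit false
open Filter Topology MeasureTheory
open scoped ENNReal

namespace Pool.Agent.TH331.Pol

theorem finite_R {K : Set ℝ} (hK : IsCompact K) (hne : K.Nonempty) {h D : ℝ} (hh : 0 < h) :
    {r : ℤ | Metric.infDist (gp h r) K ≤ D}.Finite := by
  by_contra hinf
  have hinf' : {r : ℤ | Metric.infDist (gp h r) K ≤ D}.Infinite := hinf
  obtain ⟨n, hn⟩ := exists_nat_gt ((volume (Metric.cthickening (D + h / 2) K)).toReal / h)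
  obtain ⟨F, hF, hcard⟩ := hinf'.exists_subset_card_eq n
  have h1 := count_all hK hne hh F (fun r hr => hF hr)
  rw [hcard] at h1
  rw [div_lt_iff₀ hh] at hn
  linarith

theorem pol_low_eventually {K : Set ℝ} (hK : IsCompact K) (hpos : 0 < (volume K).toReal)
    {s : ℝ} (hs : 1 < s) {C : ℕ} {δ η : ℝ} (hC : 1 ≤ C) (hδ : 0 < δ) (hδ2 : δ ≤ 1 / 2)
    (hη : 0 < η) :
    ∀ᶠ N : ℕ in atTop,
      ENNReal.ofReal ((((volume K).toReal + η) / N) ^ (-s) * TT s C δ) ≤ pol K s N := by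
  have hne : K.Nonempty := by
    by_contra h
    rw [Set.not_nonempty_iff_eq_empty] at h
    rw [h] at hpos
    simp at hpos
  obtain ⟨Λ, hΛ⟩ : ∃ Λ : ℝ, Λ = (volume K).toReal := ⟨_, rfl⟩
  obtain ⟨m, hm⟩ := exists_nat_ge (TT s C δ * (2 * C) ^ s)
  -- volume of thickenings
  have hV : Tendsto (fun t : ℝ => (volume (Metric.cthickening t K)).toReal) (𝓝 0) (𝓝 Λ) := by
    rw [hΛ]
    exact (ENNReal.tendsto_toReal hK.measure_lt_top.ne).comp
      (tendsto_measure_cthickening_of_isCompact hK)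
  have hh0 : Tendsto (fun N : ℕ => (C : ℝ) * ((Λ + η) / N) + (Λ + η) / N / 2) atTop (𝓝 0) := by
    have h1 : Tendsto (fun N : ℕ => (Λ + η) / (N : ℝ)) atTop (𝓝 0) :=
      tendsto_const_div_atTop_nhds_zero_nat _
    have h2 := (h1.const_mul (C : ℝ)).add (h1.div_const 2)
    simpa using h2
  have hV2 := hV.comp hh0
  have hκ : 0 < 1 + (m : ℝ) / (2 * δ) := by positivity
  have hev : ∀ᶠ N : ℕ in atTop, (volume (Metric.cthickening
      ((C : ℝ) * ((Λ + η) / N) + (Λ + η) / N / 2) K)).toReal < Λ + η / (1 + (m : ℝ) / (2 * δ)) := by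
    have hlt : Λ < Λ + η / (1 + (m : ℝ) / (2 * δ)) := by
      have : 0 < η / (1 + (m : ℝ) / (2 * δ)) := by positivity
      linarith
    exact hV2.eventually (gt_mem_nhds hlt)
  filter_upwards [hev, eventually_ge_atTop 1] with N hN1 hN2
  rw [← hΛ]
  have hN0 : (0 : ℝ) < N := by exact_mod_cast hN2
  have hΛ0 : 0 < Λ := by rw [hΛ]; exact hpos
  obtain ⟨h, hh⟩ : ∃ h : ℝ, h = (Λ + η) / N := ⟨_, rfl⟩
  have hhpos : 0 < h := by rw [hh]; positivity
  rw [← hh] at hN1 ⊢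
  have hfin := finite_R (D := C * h) hK hne hhpos
  let R : Finset ℤ := hfin.toFinset
  have hR : ∀ r : ℤ, r ∈ R ↔ Metric.infDist (gp h r) K ≤ C * h := by
    intro r
    simp [R]
  classical
  let B : Finset ℤ := R.filter (fun r => δ * h < Metric.infDist (gp h r) K)
  have hB : ∀ r : ℤ, r ∈ B ↔ r ∈ R ∧ δ * h < Metric.infDist (gp h r) K := by
    intro r
    simp [B]
  refine pol_lower hK hne hs hhpos hδ hC hm R B hR hB ?_
  have c1 := count_all hK hne hhpos R (fun r hr => (hR r).1 hr)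
  have c2 := count_bad hK hne hhpos hδ hδ2 B (fun r hr => (hR r).1 ((hB r).1 hr).1)
    (fun r hr => ((hB r).1 hr).2)
  rw [← hΛ] at c2
  obtain ⟨ω, hω⟩ : ∃ ω : ℝ, ω = (volume (Metric.cthickening (C * h + h / 2) K)).toReal - Λ :=
    ⟨_, rfl⟩
  rw [← hω] at c2
  have hω2 : ω * (1 + (m : ℝ) / (2 * δ)) ≤ η := by
    rw [← le_div_iff₀ hκ]
    linarith
  have c1' : (R.card : ℝ) * h ≤ Λ + ω := by linarith
  have c2' : (B.card : ℝ) * h ≤ ω / (2 * δ) := by
    rw [le_div_iff₀ (by positivity)]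
    nlinarith
  have c3 : ((R.card : ℝ) + B.card * m) * h ≤ N * h := by
    have e1 : (N : ℝ) * h = Λ + η := by rw [hh]; field_simp
    rw [e1]
    have e2 : (m : ℝ) * (B.card * h) ≤ m * (ω / (2 * δ)) := by gcongr
    have e3 : ω * (1 + (m : ℝ) / (2 * δ)) = ω + m * (ω / (2 * δ)) := by ring
    nlinarith
  have c4 : (R.card : ℝ) + B.card * m ≤ N := le_of_mul_le_mul_right c3 hhpos
  exact_mod_cast c4

/-- The limit theorem for compact subsets of the line. -/
theorem pol_limit {K : Set ℝ} (hK : IsCompact K) (hpos : 0 < (volume K).toReal)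
    {s : ℝ} (hs : 1 < s) :
    Tendsto (fun N : ℕ => pol K s N / (N : ℝ≥0∞) ^ s) atTop
      (𝓝 (ENNReal.ofReal (cc s * (volume K).toReal ^ (-s)))) := by
  obtain ⟨Λ, hΛ⟩ : ∃ Λ : ℝ, Λ = (volume K).toReal := ⟨_, rfl⟩
  have hΛ0 : 0 < Λ := by rw [hΛ]; exact hpos
  have hNs : ∀ N : ℕ, 1 ≤ N → ((N : ℝ≥0∞) ^ s) = ENNReal.ofReal ((N : ℝ) ^ s) := by
    intro N hN
    rw [← ENNReal.ofReal_rpow_of_pos (by exact_mod_cast hN), ENNReal.ofReal_natCast]
  have hdiv : ∀ (N : ℕ) (a b : ℝ), 1 ≤ N → 0 < a →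
      ENNReal.ofReal ((a / N) ^ (-s) * b) / (N : ℝ≥0∞) ^ s = ENNReal.ofReal (a ^ (-s) * b) := by
    intro N a b hN ha
    have hN0 : (0 : ℝ) < N := by exact_mod_cast hN
    rw [hNs N hN, ← ENNReal.ofReal_div_of_pos (by positivity)]
    congr 1
    rw [Real.div_rpow ha.le hN0.le, Real.rpow_neg hN0.le]
    field_simp
  rw [← hΛ]
  rw [tendsto_order]
  constructor
  · intro a ha
    have ha' : a ≠ ∞ := ne_top_of_lt ha
    have ha2 : a.toReal < cc s * Λ ^ (-s) := by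
      rw [← ENNReal.lt_ofReal_iff_toReal_lt ha']
      exact ha
    -- choose C
    have hsum : Tendsto (fun C : ℕ => (2 * ∑ k ∈ Finset.range C, ((k : ℝ) + 1 / 2) ^ (-s)) * Λ ^ (-s))
        atTop (𝓝 (cc s * Λ ^ (-s))) := by
      apply Tendsto.mul_const
      unfold cc
      exact ((summable_half hs).hasSum.tendsto_sum_nat).const_mul 2
    obtain ⟨C, hCa, hC1⟩ := ((hsum.eventually (lt_mem_nhds ha2)).and (eventually_ge_atTop 1)).exists
    -- choose the small parameter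
    have hcont : ContinuousAt (fun t : ℝ => (Λ + t) ^ (-s) * TT s C t) 0 := by
      unfold TT
      apply ContinuousAt.mul
      · apply ContinuousAt.rpow_const
        · fun_prop
        · left; simp; exact hΛ0.ne'
      · apply ContinuousAt.mul continuousAt_const
        apply tendsto_finsetSum
        intro k _
        have : ContinuousAt (fun t : ℝ => ((k : ℝ) + 1 / 2 + t) ^ (-s)) 0 := by
          apply ContinuousAt.rpow_const
          · fun_prop
          · left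
            have : (0 : ℝ) ≤ k := Nat.cast_nonneg k
            have : 0 < (k : ℝ) + 1 / 2 + 0 := by linarith
            exact this.ne'
        exact this
    have hval : a.toReal < (fun t : ℝ => (Λ + t) ^ (-s) * TT s C t) 0 := by
      simp only [add_zero, TT]
      rw [mul_comm]
      exact hCa
    have hev : ∀ᶠ t : ℝ in 𝓝 0, a.toReal < (Λ + t) ^ (-s) * TT s C t :=
      hcont.eventually (lt_mem_nhds hval)
    obtain ⟨t, ht1, ht2, ht3⟩ : ∃ t : ℝ, a.toReal < (Λ + t) ^ (-s) * TT s C t ∧ 0 < t ∧ t ≤ 1 / 2 := by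
      have h1 : ∀ᶠ t : ℝ in 𝓝[>] 0, a.toReal < (Λ + t) ^ (-s) * TT s C t :=
        hev.filter_mono nhdsWithin_le_nhds
      have h2 : ∀ᶠ t : ℝ in 𝓝[>] 0, t ∈ Set.Ioc (0 : ℝ) (1 / 2) :=
        Ioc_mem_nhdsGT (by norm_num)
      obtain ⟨t, ht⟩ := (h1.and h2).exists
      exact ⟨t, ht.1, ht.2.1, ht.2.2⟩
    filter_upwards [pol_low_eventually hK hpos hs hC1 ht2 ht3 ht2, eventually_ge_atTop 1]
      with N hN1 hN2
    rw [← hΛ] at hN1
    have h1 : ENNReal.ofReal ((Λ + t) ^ (-s) * TT s C t) ≤ pol K s N / (N : ℝ≥0∞) ^ s := by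
      rw [← hdiv N (Λ + t) (TT s C t) hN2 (by positivity)]
      exact ENNReal.div_le_div_right hN1 _
    refine lt_of_lt_of_le ?_ h1
    rw [ENNReal.lt_ofReal_iff_toReal_lt ha']
    exact ht1
  · intro a ha
    filter_upwards [eventually_ge_atTop 1] with N hN
    refine lt_of_le_of_lt ?_ ha
    have h1 := pol_upper hK hpos hs hN
    rw [← hΛ, mul_comm] at h1
    rw [mul_comm, ← hdiv N Λ (cc s) hN hΛ0]
    exact ENNReal.div_le_div_right h1 _

/-- the constant in terms of the Riemann zeta function -/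
theorem cc_eq {s : ℝ} (hs : 1 < s) :
    cc s = 2 * (2 ^ s - 1) * (riemannZeta (s : ℂ)).re := by
  have h2s : (0 : ℝ) < 2 ^ s := by positivity
  have hsumm : Summable (fun n : ℕ => ((n : ℝ) + 1) ^ (-s)) := by
    have := (summable_nat_add_iff 1).2 (Real.summable_nat_rpow.2 (show -s < -1 by linarith))
    simpa using this
  have hz : (riemannZeta (s : ℂ)).re = ∑' n : ℕ, ((n : ℝ) + 1) ^ (-s) := by
    have h1 : riemannZeta (s : ℂ) = ((∑' n : ℕ, ((n : ℝ) + 1) ^ (-s) : ℝ) : ℂ) := by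
      rw [zeta_eq_tsum_one_div_nat_add_one_cpow (by simpa using hs)]
      push_cast
      refine tsum_congr fun n => ?_
      rw [Complex.ofReal_cpow (by positivity)]
      push_cast
      rw [Complex.cpow_neg, one_div]
    rw [h1, Complex.ofReal_re]
  -- split into even and odd
  have hodd : ∀ i : ℕ, ((i : ℝ) + 1 / 2) ^ (-s) = 2 ^ s * (((2 * i : ℕ) : ℝ) + 1) ^ (-s) := by
    intro i
    have : ((i : ℝ) + 1 / 2) = (((2 * i : ℕ) : ℝ) + 1) / 2 := by push_cast; ring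
    rw [this, Real.div_rpow (by positivity) (by norm_num), Real.rpow_neg (by norm_num : (0 : ℝ) ≤ 2)]
    field_simp
  have heven : ∀ i : ℕ, (((2 * i + 1 : ℕ) : ℝ) + 1) ^ (-s) = 2 ^ (-s) * ((i : ℝ) + 1) ^ (-s) := by
    intro i
    rw [← Real.mul_rpow (by norm_num) (by positivity)]
    congr 1
    push_cast
    ring
  have hs1 : Summable (fun i : ℕ => (((2 * i : ℕ) : ℝ) + 1) ^ (-s)) :=
    hsumm.comp_injective (i := fun i : ℕ => 2 * i) (fun a b hab => by simpa using hab)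
  have hs2 : Summable (fun i : ℕ => (((2 * i + 1 : ℕ) : ℝ) + 1) ^ (-s)) :=
    hsumm.comp_injective (i := fun i : ℕ => 2 * i + 1) (fun a b hab => by simpa using hab)
  have hsplit := tsum_even_add_odd (f := fun n : ℕ => ((n : ℝ) + 1) ^ (-s)) hs1 hs2
  have e1 : ∑' i : ℕ, ((i : ℝ) + 1 / 2) ^ (-s) =
      2 ^ s * ∑' i : ℕ, (((2 * i : ℕ) : ℝ) + 1) ^ (-s) := by
    rw [← tsum_mul_left]
    exact tsum_congr hodd
  have e2 : ∑' i : ℕ, (((2 * i + 1 : ℕ) : ℝ) + 1) ^ (-s) =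
      2 ^ (-s) * ∑' i : ℕ, ((i : ℝ) + 1) ^ (-s) := by
    rw [← tsum_mul_left]
    exact tsum_congr heven
  unfold cc
  rw [hz, e1]
  have e3 : ∑' i : ℕ, (((2 * i : ℕ) : ℝ) + 1) ^ (-s) =
      (1 - 2 ^ (-s)) * ∑' i : ℕ, ((i : ℝ) + 1) ^ (-s) := by
    have : ∑' i : ℕ, (((2 * i : ℕ) : ℝ) + 1) ^ (-s) + ∑' i : ℕ, (((2 * i + 1 : ℕ) : ℝ) + 1) ^ (-s)
        = ∑' i : ℕ, ((i : ℝ) + 1) ^ (-s) := hsplit
    rw [e2] at this
    linarith
  rw [e3]
  have e4 : (2 : ℝ) ^ s * (1 - 2 ^ (-s)) = 2 ^ s - 1 := by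
    rw [mul_sub, ← Real.rpow_add (by norm_num)]
    simp
  rw [← mul_assoc ((2 : ℝ) ^ s), e4]
  ring

end Pool.Agent.TH331.Pol
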